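import Pool.Agent.Lib.MP_e7ecf3_lc.Obstruction

/-! A flux obstruction to topological orbit equivalence with an action of the integers. -/

namespace Pool.Agent.Lib.MP_e7ecf3_lc

open Topology TopologicalSpace Filter Set

theorem tele (c : ℤ → ℤ) (M : ℕ) {a b : ℤ} (ha : ∀ n : ℤ, M ≤ n → c n = a)
    (hb : ∀ n : ℤ, n ≤ -M → c n = b) : ∑ᶠ n, (c (n + 1) - c n) = a - b := by
  classical
  rw [finsum_eq_sum_of_support_subset (s := (Finset.range (2 * M)).image fun i : ℕ => (i : ℤ) - M),
    Finset.sum_image fun i _ j _ k => by simpa using k]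
  · have := Finset.sum_range_sub (fun i : ℕ => c (i - M)) (2 * M)
    rw [ha _ (by omega), hb _ (by omega)] at this
    rw [← this]
    exact Finset.sum_congr rfl fun i _ => by congr 2; omega
  · intro n hn
    have h1 : n < M := lt_of_not_ge fun q => hn (by
      simp only; rw [ha n q, ha (n + 1) (by omega), sub_self])
    have h2 : -M ≤ n := le_of_not_gt fun q => hn (by
      simp only; rw [hb n q.le, hb (n + 1) (by omega), sub_self])
    exact Finset.mem_coe.2 (Finset.mem_image.2 ⟨(n + M).toNat, Finset.mem_range.2 (by omega),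
      by omega⟩)

theorem ends (c : ℤ → ℤ) (h : {n | c (n + 1) ≠ c n}.Finite) :
    ∃ M : ℕ, (∀ n : ℤ, M ≤ n → c n = c M) ∧ ∀ n : ℤ, n ≤ -M → c n = c (-M) := by
  obtain ⟨N, hN⟩ := (h.image Int.natAbs).bddAbove
  have hN' : ∀ n, N < n.natAbs → c (n + 1) = c n := fun n hn => by
    by_contra hne
    exact absurd (hN ⟨n, hne, rfl⟩) (not_le.2 hn)
  refine ⟨N + 1, fun n hn => ?_, fun n hn => ?_⟩
  · induction n, hn using Int.leInduction with
    | base => rfl
    | succ n hn ih => rw [hN' n (by omega), ih]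
  · induction n, hn using Int.leInductionDown with
    | base => rfl
    | pred n hn ih => rw [← hN' (n - 1) (by omega), sub_add_cancel, ih]

theorem flux_obstruction {G X : Type} [Group G] [Infinite G] [TopologicalSpace X] [CompactSpace X]
    [MulAction G X] [ContinuousConstSMul G X] (hfree : ∀ (g : G) (x : X), g • x = x → g = 1)
    (col : X → ℤ) (hcol : IsLocallyConstant col) (x : X) (y : ℕ → X) (h : ℕ → G)
    (hy : Tendsto y atTop (𝓝 x)) (hh : Tendsto (fun k => h k • y k) atTop (𝓝 x))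
    (hJ : ∀ S : Finset G, ∃ J : Finset G,
      (∀ g, ∀ d ∈ S, col (d • g • x) ≠ col (g • x) → g ∈ J) ∧ ∀ᶠ k in atTop,
        (∀ g, ∀ d ∈ S, col (d • g • y k) ≠ col (g • y k) → g ∈ J ∨ g * (h k)⁻¹ ∈ J) ∧
          ∀ g ∈ J, g * h k ∉ J)
    (hfin : ∀ k, {g : G | col (g • y k) ≠ 1}.Finite)
    (hinf : ∀ v, {g : G | col (g • x) ≠ v}.Infinite)
    {Z : Type} [TopologicalSpace Z] [AddAction ℤ Z] [ContinuousConstVAdd ℤ Z] (φ : X ≃ₜ Z)
    (hφ : ∀ x, ∃ z, φ '' MulAction.orbit G x = AddAction.orbit ℤ z) : False := by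
  classical
  have hφ' : ∀ x, φ '' MulAction.orbit G x = AddAction.orbit ℤ (φ x) := by
    intro x
    obtain ⟨z, hz⟩ := hφ x
    have : φ x ∈ AddAction.orbit ℤ z := hz ▸ ⟨x, MulAction.mem_orbit_self x, rfl⟩
    rw [hz, (AddAction.orbit_eq_iff.2 this)]
  let T : X → X := fun x => φ.symm ((1 : ℤ) +ᵥ φ x)
  have hT : Continuous T := φ.symm.continuous.comp ((continuous_const_vadd _).comp φ.continuous)
  have horb : ∀ (x : X) (n : ℤ), ∃ g : G, φ.symm (n +ᵥ φ x) = g • x := by
    intro x n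
    have : n +ᵥ φ x ∈ φ '' MulAction.orbit G x := by rw [hφ']; exact ⟨n, rfl⟩
    obtain ⟨_, ⟨g, rfl⟩, hg⟩ := this
    exact ⟨g, by rw [← hg]; simp⟩
  have enum (z : X) : ∃ e : ℤ ≃ G, ∀ n, T (e n • z) = e (n + 1) • z := by
    choose e he using horb z
    have inj : Function.Injective fun g : G => g • z := fun a b k =>
      (inv_mul_eq_one.1 (hfree _ z (by rw [mul_smul, ← show a • z = b • z from k, inv_smul_smul])))
    have iz := int_orbit_injective (φ z) (by
      rw [← hφ']
      exact (infinite_range_of_injective inj).image φ.injective.injOn)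
    refine ⟨.ofBijective e ⟨fun a b k => iz (φ.symm.injective (by rw [he, he, k])), fun g => ?_⟩,
      fun n => ?_⟩
    · obtain ⟨n, hn⟩ : φ (g • z) ∈ AddAction.orbit ℤ (φ z) := hφ' z ▸ ⟨_, ⟨g, rfl⟩, rfl⟩
      refine ⟨n, inj ?_⟩
      simp only at hn ⊢
      rw [← he, hn, φ.symm_apply_apply]
    · change φ.symm ((1 : ℤ) +ᵥ φ (e n • z)) = e (n + 1) • z
      rw [← he, ← he, φ.apply_symm_apply, add_comm, add_vadd]
  let f : X → ℤ := fun z => col (T z) - col z
  have hf : IsLocallyConstant f := (hcol.comp_continuous hT).sub hcol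
  obtain ⟨S, hS⟩ := (hf.isClopen_fiber 0).compl.isClosed.isCompact.elim_finite_subcover
    (fun d : G => {z | col (d • z) - col z = 0}ᶜ)
    (fun d => (((hcol.comp_continuous (continuous_const_smul d)).sub hcol).isClopen_fiber
      0).compl.isOpen) fun z k => by
      obtain ⟨g, hg⟩ := horb z 1
      refine mem_iUnion.2 ⟨g, fun q => k ?_⟩
      change col (φ.symm ((1 : ℤ) +ᵥ φ z)) - col z = 0
      rwa [hg]
  have hS' (z : X) (k : f z ≠ 0) : ∃ d ∈ S, col (d • z) ≠ col z := by
    obtain ⟨d, a, b⟩ := mem_iUnion₂.1 (hS k)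
    exact ⟨d, a, fun q => b (sub_eq_zero.2 q)⟩
  obtain ⟨J, J1, J2⟩ := hJ S
  let Φ : X → ℤ := fun z => ∑ g ∈ J, f (g • z)
  have hΦ : ∀ᶠ z in 𝓝 x, Φ z = Φ x := by
    have : ∀ᶠ z in 𝓝 x, ∀ g ∈ J, f (g • z) = f (g • x) := (Finset.eventually_all J).2 fun g _ =>
      (hf.comp_continuous (continuous_const_smul g)).eventually_eq x
    filter_upwards [this] with z k using Finset.sum_congr rfl k
  have sum (z : X) (e : ℤ ≃ G) (he : ∀ n, T (e n • z) = e (n + 1) • z) :
      ∑ᶠ g : G, f (g • z) = ∑ᶠ n, (col (e (n + 1) • z) - col (e n • z)) := by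
    rw [← finsum_comp_equiv e]
    simp only [f, he]
  obtain ⟨k, ⟨k1, k2⟩, k3, k4⟩ := (J2.and ((hy.eventually hΦ).and (hh.eventually hΦ))).exists
  have zero : Φ x = 0 := by
    obtain ⟨e, he⟩ := enum (y k)
    obtain ⟨N, hN⟩ := (((hfin k).preimage e.injective.injOn).image Int.natAbs).bddAbove
    have one (n : ℤ) (q : N < n.natAbs) : col (e n • y k) = 1 := by
      by_contra hne
      exact absurd (hN ⟨n, hne, rfl⟩) (not_le.2 q)
    have a := (sum _ e he).trans (tele (fun n => col (e n • y k)) (N + 1)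
      (fun n q => one n (by omega)) fun n q => one n (by omega))
    rw [finsum_eq_sum_of_support_subset (s := J ∪ J.image (· * h k)), Finset.sum_union,
      Finset.sum_image fun _ _ _ _ q => mul_right_cancel q] at a
    · simp only [mul_smul] at a
      change Φ _ + Φ _ = _ at a
      omega
    · refine Finset.disjoint_right.2 fun g q => ?_
      obtain ⟨g', q', rfl⟩ := Finset.mem_image.1 q
      exact k2 g' q'
    · intro g q
      obtain ⟨d, a, b⟩ := hS' _ q
      rcases k1 g d a b with q | q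
      · exact Finset.mem_coe.2 (Finset.mem_union_left _ q)
      · exact Finset.mem_coe.2 (Finset.mem_union_right _ (Finset.mem_image.2 ⟨_, q, by simp⟩))
  obtain ⟨e, he⟩ := enum x
  have sup : Function.support (fun g : G => f (g • x)) ⊆ J := fun g q =>
    (hS' _ q).elim fun d a => J1 g d a.1 a.2
  obtain ⟨M, M1, M2⟩ := ends (fun n => col (e n • x))
    ((J.finite_toSet.preimage e.injective.injOn).subset fun n q => sup (by
      change col (T (e n • x)) - col (e n • x) ≠ 0
      rw [he]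
      exact sub_ne_zero.2 q))
  have a := (sum _ e he).trans (tele (fun n => col (e n • x)) M M1 M2)
  rw [finsum_eq_sum_of_support_subset _ sup] at a
  have b := sub_eq_zero.1 (a.symm.trans zero)
  refine hinf (col (e M • x)) (((finite_Ioo (-(M : ℤ)) M).image e).subset fun g q => ?_)
  obtain ⟨n, rfl⟩ := e.surjective g
  exact ⟨n, ⟨lt_of_not_ge fun t => q ((M2 n t).trans b.symm), lt_of_not_ge fun t => q (M1 n t)⟩, rfl⟩

end Pool.Agent.Lib.MP_e7ecf3_lc
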