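import Mathlib

/-!
An obstruction to topological orbit equivalence with an action of the integers:
three infinite almost invariant colour classes.
-/

namespace Pool.Agent.Lib.MP_e7ecf3_lc

open Topology TopologicalSpace Filter Set

/-- An integer orbit map with infinite range is injective. -/
theorem int_orbit_injective {Y : Type} [AddAction ℤ Y] (y : Y)
    (hinf : (AddAction.orbit ℤ y).Infinite) : Function.Injective fun n : ℤ => n +ᵥ y := by
  intro n m hnm
  by_contra hne
  apply hinf
  have hp : (n - m) +ᵥ y = y := by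
    have h1 : n +ᵥ y = m +ᵥ y := hnm
    rw [sub_eq_neg_add, add_vadd, h1, neg_vadd_vadd]
  have hp0 : n - m ≠ 0 := sub_ne_zero.2 hne
  have hmem : n - m ∈ AddAction.stabilizer ℤ y := hp
  refine ((Set.finite_Ico (0 : ℤ) |n - m|).image fun k : ℤ => k +ᵥ y).subset ?_
  rintro _ ⟨k, rfl⟩
  refine ⟨k % (n - m), ⟨Int.emod_nonneg _ hp0, Int.emod_lt_abs _ hp0⟩, ?_⟩
  have h2 : (k / (n - m)) • (n - m) ∈ AddAction.stabilizer ℤ y := AddSubgroup.zsmul_mem _ hmem _
  have h3 : ((k / (n - m)) • (n - m)) +ᵥ y = y := h2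
  have h4 : k = k % (n - m) + (k / (n - m)) • (n - m) := by
    rw [smul_eq_mul, mul_comm]; exact (Int.emod_add_mul_ediv k (n - m)).symm
  simp only
  conv_rhs => rw [h4, add_vadd, h3]

/-- A colouring of the integers that changes finitely often misses one of three colours
outside a finite set. -/
theorem exists_finite_colour (c : ℤ → Fin 3) (h : {n | c (n + 1) ≠ c n}.Finite) :
    ∃ k, {n | c n = k}.Finite := by
  obtain ⟨N, hN⟩ := (h.image fun n => |n|).bddAbove
  have hN' : ∀ n, N < |n| → c (n + 1) = c n := by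
    intro n hn
    by_contra hne
    have : |n| ≤ N := hN ⟨n, hne, rfl⟩
    omega
  set M := |N| + 1 with hM
  have hNM : N < M := by have := le_abs_self N; omega
  have hM0 : 0 < M := by have := abs_nonneg N; omega
  have hup : ∀ n, M ≤ n → c n = c M := by
    intro n hn
    induction n, hn using Int.leInduction with
    | base => rfl
    | succ n hn ih =>
      rw [hN' n (by have := le_abs_self n; omega), ih]
  have hdown : ∀ n, n ≤ -M → c n = c (-M) := by
    intro n hn
    induction n, hn using Int.leInductionDown with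
    | base => rfl
    | pred n hn ih =>
      have := hN' (n - 1) (by have := neg_le_abs (n - 1); omega)
      rw [← this, sub_add_cancel, ih]
  have hk : ∀ a b : Fin 3, ∃ k, k ≠ a ∧ k ≠ b := by decide
  obtain ⟨k, hk1, hk2⟩ := hk (c M) (c (-M))
  refine ⟨k, (Set.finite_Ioo (-M) M).subset fun n hn => ?_⟩
  have hn' : c n = k := hn
  constructor
  · by_contra hle
    exact hk2 (by rw [← hn', hdown n (by omega)])
  · by_contra hle
    exact hk1 (by rw [← hn', hup n (by omega)])

/-- The space of three-colourings of `G` times `Y`. -/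
def Sp (G Y : Type) : Type := (G → Fin 3) × Y

instance (G Y : Type) [TopologicalSpace Y] : TopologicalSpace (Sp G Y) :=
  inferInstanceAs (TopologicalSpace ((G → Fin 3) × Y))

instance (G Y : Type) [TopologicalSpace Y] [CompactSpace Y] : CompactSpace (Sp G Y) :=
  inferInstanceAs (CompactSpace ((G → Fin 3) × Y))

instance (G Y : Type) [Countable G] [TopologicalSpace Y] [PolishSpace Y] : PolishSpace (Sp G Y) :=
  haveI : SecondCountableTopology (Sp G Y) :=
    inferInstanceAs (SecondCountableTopology ((G → Fin 3) × Y))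
  haveI : IsCompletelyMetrizableSpace (Sp G Y) :=
    inferInstanceAs (IsCompletelyMetrizableSpace ((G → Fin 3) × Y))
  {}

instance (G Y : Type) [TopologicalSpace Y] [TotallyDisconnectedSpace Y] :
    TotallyDisconnectedSpace (Sp G Y) :=
  inferInstanceAs (TotallyDisconnectedSpace ((G → Fin 3) × Y))

instance (G Y : Type) [Group G] [MulAction G Y] : MulAction G (Sp G Y) where
  smul g x := (fun d => x.1 (d * g), g • x.2)
  one_smul x := by
    change ((fun d => x.1 (d * 1)), (1 : G) • x.2) = x
    simp only [mul_one, one_smul]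
    rfl
  mul_smul g h x := by
    change ((fun d => x.1 (d * (g * h))), (g * h) • x.2) =
      ((fun d => x.1 (d * g * h)), g • h • x.2)
    simp only [mul_assoc, mul_smul]

theorem Sp.smul_fst {G Y : Type} [Group G] [MulAction G Y] (g : G) (x : Sp G Y) (d : G) :
    (g • x).1 d = x.1 (d * g) := rfl

theorem Sp.smul_snd {G Y : Type} [Group G] [MulAction G Y] (g : G) (x : Sp G Y) :
    (g • x).2 = g • x.2 := rfl

instance (G Y : Type) [Group G] [MulAction G Y] [TopologicalSpace Y] [ContinuousConstSMul G Y] :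
    ContinuousConstSMul G (Sp G Y) where
  continuous_const_smul g := by
    change Continuous fun x : (G → Fin 3) × Y => ((fun d => x.1 (d * g)), g • x.2)
    fun_prop

theorem Sp.free {G Y : Type} [Group G] [MulAction G Y]
    (hfree : ∀ (g : G) (y : Y), g • y = y → g = 1) (g : G) (x : Sp G Y) (h : g • x = x) :
    g = 1 :=
  hfree g x.2 (by rw [← Sp.smul_snd, h])

/-- The obstruction. -/
theorem not_orbitEquivalent {G Y : Type} [Group G] [TopologicalSpace Y] [CompactSpace Y]
    [MulAction G Y] (hfree : ∀ (g : G) (y : Y), g • y = y → g = 1) (y0 : Y)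
    (c : G → Fin 3) (hcinf : ∀ k, {g | c g = k}.Infinite)
    (hcinv : ∀ d, {g | c (d * g) ≠ c g}.Finite)
    {Z : Type} [TopologicalSpace Z] [AddAction ℤ Z] [ContinuousConstVAdd ℤ Z]
    (φ : Sp G Y ≃ₜ Z)
    (hφ : ∀ x, ∃ z, φ '' MulAction.orbit G x = AddAction.orbit ℤ z) : False := by
  classical
  have hφ' : ∀ x, φ '' MulAction.orbit G x = AddAction.orbit ℤ (φ x) := by
    intro x
    obtain ⟨z, hz⟩ := hφ x
    have : φ x ∈ AddAction.orbit ℤ z := hz ▸ ⟨x, MulAction.mem_orbit_self x, rfl⟩
    rw [hz, (AddAction.orbit_eq_iff.2 this)]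
  let T : Sp G Y → Sp G Y := fun x => φ.symm ((1 : ℤ) +ᵥ φ x)
  have hT : Continuous T := φ.symm.continuous.comp ((continuous_const_vadd _).comp φ.continuous)
  have horb : ∀ (x : Sp G Y) (n : ℤ), ∃ g : G, φ.symm (n +ᵥ φ x) = g • x := by
    intro x n
    have : n +ᵥ φ x ∈ φ '' MulAction.orbit G x := by rw [hφ']; exact ⟨n, rfl⟩
    obtain ⟨_, ⟨g, rfl⟩, hg⟩ := this
    exact ⟨g, by rw [← hg]; simp⟩
  have hev : ∀ d : G, Continuous fun x : Sp G Y => x.1 d := fun d =>
    (continuous_apply d).comp (continuous_fst (X := G → Fin 3) (Y := Y))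
  let B : Set (Sp G Y) := {x | (T x).1 1 ≠ x.1 1}
  have hB : IsCompact B := by
    have hc : Continuous fun x : Sp G Y => ((T x).1 1, x.1 1) :=
      ((hev 1).comp hT).prodMk (hev 1)
    exact ((isClosed_discrete {q : Fin 3 × Fin 3 | q.1 ≠ q.2}).preimage hc).isCompact
  let V : G → Set (Sp G Y) := fun d => {x | x.1 d ≠ x.1 1}
  have hV : ∀ d, IsOpen (V d) := by
    intro d
    have hc : Continuous fun x : Sp G Y => (x.1 d, x.1 1) := (hev d).prodMk (hev 1)
    exact (isOpen_discrete {q : Fin 3 × Fin 3 | q.1 ≠ q.2}).preimage hc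
  have hBV : B ⊆ ⋃ d, V d := by
    intro x hx
    obtain ⟨g, hg⟩ := horb x 1
    refine mem_iUnion.2 ⟨g, ?_⟩
    have h1 : (T x).1 1 = x.1 g := by
      change (φ.symm ((1 : ℤ) +ᵥ φ x)).1 1 = _
      rw [hg, Sp.smul_fst, one_mul]
    change x.1 g ≠ x.1 1
    rw [← h1]; exact hx
  obtain ⟨S, hS⟩ := hB.elim_finite_subcover V hV hBV
  let x0 : Sp G Y := (c, y0)
  have hx0 : ∀ g d : G, (g • x0).1 d = c (d * g) := fun g d => rfl
  have hfinG : {g : G | g • x0 ∈ B}.Finite := by
    refine (S.finite_toSet.biUnion fun d _ => hcinv d).subset fun g hg => ?_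
    obtain ⟨d, hd, hgd⟩ := mem_iUnion₂.1 (hS hg)
    refine mem_iUnion₂.2 ⟨d, hd, ?_⟩
    have : (g • x0).1 d ≠ (g • x0).1 1 := hgd
    rw [hx0, hx0, one_mul] at this
    exact this
  have hinjG : Function.Injective fun g : G => g • x0 := by
    intro g h hgh
    have h1 : g • x0 = h • x0 := hgh
    have h2 : (h⁻¹ * g) • x0 = x0 := by rw [mul_smul, h1, inv_smul_smul]
    exact (inv_mul_eq_one.1 (Sp.free hfree _ _ h2)).symm
  have hGinf : (univ : Set G).Infinite := (hcinf 0).mono (subset_univ _)
  have hinf : (AddAction.orbit ℤ (φ x0)).Infinite := by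
    rw [← hφ']
    refine Set.Infinite.image φ.injective.injOn ?_
    have := hGinf.image hinjG.injOn
    rwa [image_univ] at this
  have hinjZ := int_orbit_injective _ hinf
  let u : ℤ → Sp G Y := fun n => φ.symm (n +ᵥ φ x0)
  have hu : Function.Injective u := φ.symm.injective.comp hinjZ
  have huT : ∀ n, u (n + 1) = T (u n) := by
    intro n
    simp only [u, T, Homeomorph.apply_symm_apply]
    rw [add_comm, add_vadd]
  have hfinZ : {n | (u (n + 1)).1 1 ≠ (u n).1 1}.Finite := by
    refine ((hfinG.image fun g : G => g • x0).preimage hu.injOn).subset fun n hn => ?_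
    obtain ⟨g, hg⟩ := horb x0 n
    refine ⟨g, ?_, hg.symm⟩
    change g • x0 ∈ B
    rw [← hg]
    change (T (u n)).1 1 ≠ (u n).1 1
    rw [← huT]; exact hn
  obtain ⟨k, hk⟩ := exists_finite_colour (fun n => (u n).1 1) hfinZ
  apply hcinf k
  refine ((hk.image u).preimage hinjG.injOn).subset fun g hg => ?_
  have : φ (g • x0) ∈ AddAction.orbit ℤ (φ x0) := by
    rw [← hφ']; exact ⟨_, ⟨g, rfl⟩, rfl⟩
  obtain ⟨n, hn⟩ := this
  have hun : u n = g • x0 := by
    simp only [u]
    have hn' : n +ᵥ φ x0 = φ (g • x0) := hn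
    rw [hn']; simp
  refine ⟨n, ?_, hun⟩
  change (u n).1 1 = k
  rw [hun, hx0, one_mul]; exact hg

end Pool.Agent.Lib.MP_e7ecf3_lc
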