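import Mathlib
import Pool.Agent.Lib.MP_e7ecf3_lc.Obstruction

/-!
The countable direct sum of copies of the group of order two, as the subgroup of finitely
supported elements of the compact group `K`, its exhaustion by finite subgroups and an almost
invariant three-colouring with infinite colour classes.
-/

namespace Pool.Agent.Lib.MP_e7ecf3_lc

open Topology TopologicalSpace Filter Set

theorem Sp.perfectSpace (G Y : Type) [Infinite G] [TopologicalSpace Y] :
    PerfectSpace (Sp G Y) := by
  classical
  rw [perfectSpace_iff_forall_not_isolated]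
  intro x
  refine ⟨fun hbot => ?_⟩
  have h1 : IsOpen ({x} : Set (Sp G Y)) := (isOpen_singleton_iff_punctured_nhds x).2 hbot
  have h2 : IsOpen ({x.1} : Set (G → Fin 3)) := by
    have h0 : IsOpen ({(x.1, x.2)} : Set ((G → Fin 3) × Y)) := h1
    have := isOpenMap_fst (X := G → Fin 3) (Y := Y) _ h0
    rwa [image_singleton] at this
  obtain ⟨I, u, hu, hsub⟩ := isOpen_pi_iff.1 h2 x.1 rfl
  obtain ⟨g, hg⟩ := Infinite.exists_notMem_finset I
  have h3 : Function.update x.1 g (x.1 g + 1) ∈ (I : Set G).pi u := by
    intro i hi
    have : i ≠ g := fun h => hg (h ▸ hi)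
    rw [Function.update_of_ne this]
    exact (hu i hi).2
  have h4 := congrFun (hsub h3) g
  rw [Function.update_self] at h4
  have h5 : ∀ a : Fin 3, a + 1 ≠ a := by decide
  exact h5 _ h4

/-- The compact group. -/
abbrev K : Type := ℕ → Multiplicative (ZMod 2)

instance : PolishSpace K := {}

/-- Finitely supported elements. -/
def Gam : Subgroup K where
  carrier := {g | ∃ n, ∀ k, n ≤ k → g k = 1}
  one_mem' := ⟨0, fun _ _ => rfl⟩
  mul_mem' := by
    rintro a b ⟨n, hn⟩ ⟨m, hm⟩
    refine ⟨max n m, fun k hk => ?_⟩
    rw [Pi.mul_apply, hn k (le_of_max_le_left hk), hm k (le_of_max_le_right hk), mul_one]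
  inv_mem' := by
    rintro a ⟨n, hn⟩
    exact ⟨n, fun k hk => by rw [Pi.inv_apply, hn k hk, inv_one]⟩

/-- Elements supported below `n`. -/
def Fn (n : ℕ) : Subgroup Gam where
  carrier := {g | ∀ k, n ≤ k → (g : K) k = 1}
  one_mem' := fun _ _ => rfl
  mul_mem' := by
    intro a b ha hb k hk
    rw [Subgroup.coe_mul, Pi.mul_apply, ha k hk, hb k hk, mul_one]
  inv_mem' := by
    intro a ha k hk
    rw [Subgroup.coe_inv, Pi.inv_apply, ha k hk, inv_one]

theorem mem_Fn {n : ℕ} {g : Gam} : g ∈ Fn n ↔ ∀ k, n ≤ k → (g : K) k = 1 := Iff.rfl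

theorem Fn_finite (n : ℕ) : Finite (Fn n) := by
  refine Finite.of_injective (fun (g : Fn n) (i : Fin n) => ((g : Gam) : K) i) ?_
  intro g h hgh
  apply Subtype.ext
  apply Subtype.ext
  funext k
  by_cases hk : k < n
  · exact congrFun hgh ⟨k, hk⟩
  · rw [g.2 k (by omega), h.2 k (by omega)]

theorem Fn_mono : Monotone Fn := fun _ _ hnm _ hg k hk => hg k (le_trans hnm hk)

theorem Fn_cover (g : Gam) : ∃ n, g ∈ Fn n := g.2

instance : Countable Gam := by
  have h : (univ : Set Gam) = ⋃ n, (Fn n : Set Gam) := by
    symm
    exact eq_univ_of_forall fun g => mem_iUnion.2 (Fn_cover g)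
  rw [← Set.countable_univ_iff, h]
  exact countable_iUnion fun n => (Set.finite_coe_iff.1 (Fn_finite n)).countable

theorem Gam_free (g : Gam) (y : K) (h : g • y = y) : g = 1 := by
  have h1 : (g : K) * y = y := h
  exact Subtype.ext (mul_eq_right.1 h1)

open Classical in
/-- The least `n` with `g ∈ Fn n`. -/
noncomputable def level (g : Gam) : ℕ := Nat.find (Fn_cover g)

theorem level_le_iff {g : Gam} {n : ℕ} : level g ≤ n ↔ g ∈ Fn n := by
  classical
  constructor
  · intro h
    exact Fn_mono h (Nat.find_spec (Fn_cover g))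
  · intro h
    exact Nat.find_min' _ h

theorem level_mul {d g : Gam} (hg : g ∉ Fn (level d)) : level (d * g) = level g := by
  have hd : d ∈ Fn (level d) := level_le_iff.1 le_rfl
  have hlt : level d < level g := by
    by_contra hle
    exact hg (level_le_iff.1 (by omega))
  apply le_antisymm
  · exact level_le_iff.2 ((Fn _).mul_mem (Fn_mono hlt.le hd) (level_le_iff.1 le_rfl))
  · have hdg : d * g ∉ Fn (level d) := fun h => hg (by
      have := (Fn _).mul_mem ((Fn _).inv_mem hd) h
      simpa using this)
    have hlt' : level d < level (d * g) := by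
      by_contra hle
      exact hdg (level_le_iff.1 (by omega))
    have := (Fn _).mul_mem ((Fn _).inv_mem (Fn_mono hlt'.le hd))
      (level_le_iff.1 (le_refl (level (d * g))))
    exact level_le_iff.2 (by simpa using this)

/-- The element supported exactly at `n`. -/
def gen (n : ℕ) : Gam :=
  ⟨Function.update 1 n (Multiplicative.ofAdd 1), n + 1, fun k hk => by
    rw [Function.update_of_ne (by omega)]; rfl⟩

theorem level_gen (n : ℕ) : level (gen n) = n + 1 := by
  apply le_antisymm
  · refine level_le_iff.2 fun k hk => ?_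
    change Function.update (1 : K) n (Multiplicative.ofAdd 1) k = 1
    rw [Function.update_of_ne (by omega)]; rfl
  · by_contra hle
    have h1 : gen n ∈ Fn n := level_le_iff.1 (by omega)
    have h2 : Function.update (1 : K) n (Multiplicative.ofAdd 1) n = 1 := h1 n le_rfl
    rw [Function.update_self] at h2
    exact absurd h2 (by decide)

/-- The colouring. -/
noncomputable def col (g : Gam) : Fin 3 := ⟨level g % 3, Nat.mod_lt _ (by norm_num)⟩

theorem col_infinite (k : Fin 3) : {g | col g = k}.Infinite := by
  refine Set.infinite_of_injective_forall_mem (f := fun n : ℕ => gen (3 * n + 2 + k)) ?_ ?_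
  · intro n m hnm
    have := congrArg level hnm
    simp only [level_gen] at this
    omega
  · intro n
    apply Fin.ext
    have := k.2
    simp only [col, level_gen]
    omega

theorem col_almost_invariant (d : Gam) : {g | col (d * g) ≠ col g}.Finite := by
  refine (Set.finite_coe_iff.1 (Fn_finite (level d))).subset fun g hg => ?_
  by_contra hmem
  apply hg
  simp only [col, level_mul hmem]

instance : Infinite Gam := Set.infinite_univ_iff.1 ((col_infinite 0).mono (subset_univ _))

end Pool.Agent.Lib.MP_e7ecf3_lc
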