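import Pool.Agent.Lib.MP_e7ecf3_lc.Sel

/-! The infinite dihedral group as a line, and the continuous reduction of its free actions to
eventual equality. -/

namespace Pool.Agent.Lib.MP_e7ecf3_lc

open Topology TopologicalSpace Filter Set DihedralGroup

/-- the infinite dihedral group -/
abbrev Di : Type := DihedralGroup 0

/-- its Cayley line -/
def ln (n : ℤ) : Di := if n % 2 = 0 then r (n / 2 : ℤ) else sr (n / 2 : ℤ)

/-- the position on the line -/
def ps : Di → ℤ
  | r k => 2 * (show ℤ from k)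
  | sr k => 2 * (show ℤ from k) + 1

theorem ln_ev (k : ℤ) : ln (2 * k) = r (show ℤ from k) := by
  have h1 : 2 * k % 2 = 0 := by omega
  have h2 : 2 * k / 2 = k := by omega
  simp only [ln, h1, h2, if_true]

theorem ln_od (k : ℤ) : ln (2 * k + 1) = sr (show ℤ from k) := by
  have h1 : ¬ (2 * k + 1) % 2 = 0 := by omega
  have h2 : (2 * k + 1) / 2 = k := by omega
  simp only [ln, h1, h2, if_false]

theorem ln_ps (g : Di) : ln (ps g) = g := by
  cases g with
  | r k => exact ln_ev k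
  | sr k => exact ln_od k

theorem ps_ln (n : ℤ) : ps (ln n) = n := by
  obtain ⟨k, rfl | rfl⟩ := Int.even_or_odd' n
  · rw [ln_ev]; rfl
  · rw [ln_od]; rfl

theorem ln_inj : Function.Injective ln := Function.LeftInverse.injective ps_ln

theorem ln_zero : ln 0 = 1 := ln_ev 0

theorem ln_mul_ev (n : ℤ) {m : ℤ} (h : m % 2 = 0) : ln n * ln m = ln (m + n) := by
  obtain ⟨j, rfl⟩ : ∃ j, m = 2 * j := ⟨m / 2, by omega⟩
  obtain ⟨k, rfl | rfl⟩ := Int.even_or_odd' n
  · rw [show 2 * j + 2 * k = 2 * (k + j) by ring, ln_ev, ln_ev, ln_ev]; rfl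
  · rw [show 2 * j + (2 * k + 1) = 2 * (k + j) + 1 by ring, ln_ev, ln_od, ln_od]; rfl

theorem ln_mul_od (n : ℤ) {m : ℤ} (h : m % 2 = 1) : ln n * ln m = ln (m - n) := by
  obtain ⟨j, rfl⟩ : ∃ j, m = 2 * j + 1 := ⟨m / 2, by omega⟩
  obtain ⟨k, rfl | rfl⟩ := Int.even_or_odd' n
  · rw [show 2 * j + 1 - 2 * k = 2 * (j - k) + 1 by ring, ln_ev, ln_od, ln_od]; rfl
  · rw [show 2 * j + 1 - (2 * k + 1) = 2 * (j - k) by ring, ln_ev, ln_od, ln_od]; rfl

instance : Countable Di := (Function.LeftInverse.injective ln_ps).countable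

instance : Infinite Di := .of_injective ln ln_inj

theorem exists_up {X : Type} [TopologicalSpace X] (Q : X → ℤ → Prop)
    (hQ : ∀ j, IsClopen {x | Q x j}) (h : ∀ x, ∃ k, 0 < k ∧ Q x k) :
    ∃ u : X → ℤ, IsLocallyConstant u ∧
      ∀ x, 0 < u x ∧ Q x (u x) ∧ ∀ j, 0 < j → Q x j → u x ≤ j := by
  choose u hu hu' using fun x => Int.exists_least_of_bdd (P := fun k => 0 < k ∧ Q x k)
    ⟨0, fun z k => k.1.le⟩ (h x)
  refine ⟨u, (IsLocallyConstant.iff_eventually_eq _).2 fun x => ?_,
    fun x => ⟨(hu x).1, (hu x).2, fun j a b => hu' x j ⟨a, b⟩⟩⟩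
  have : ∀ᶠ y in 𝓝 x, ∀ j ∈ Icc 0 (u x), (Q y j ↔ Q x j) :=
    (finite_Icc _ _).eventually_all.2 fun j _ => by
      by_cases q : Q x j
      · filter_upwards [(hQ j).isOpen.mem_nhds q] with y hy using iff_of_true hy q
      · filter_upwards [(hQ j).compl.isOpen.mem_nhds q] with y hy using iff_of_false hy q
  filter_upwards [this] with y hy
  have a := hu' y _ ⟨(hu x).1, (hy _ ⟨(hu x).1.le, le_rfl⟩).2 (hu x).2⟩
  exact le_antisymm a (hu' x _ ⟨(hu y).1, (hy _ ⟨(hu y).1.le, a⟩).1 (hu y).2⟩)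

theorem shift_up (P : ℤ → Prop) {M m u v : ℤ} (hP : ∀ j, -M ≤ j → j ≤ M → ¬ P j) (h1 : -M ≤ m)
    (h2 : m ≤ M) (hu : 0 < u ∧ P u ∧ ∀ j, 0 < j → P j → u ≤ j)
    (hv : 0 < v ∧ P (m + v) ∧ ∀ j, 0 < j → P (m + j) → v ≤ j) : m + v = u := by
  have a : M < u := lt_of_not_ge fun q => hP u (by omega) q hu.2.1
  have b : M < m + v := lt_of_not_ge fun q => hP _ (by omega) q hv.2.1
  have c := hu.2.2 _ (by omega) hv.2.1
  have d := hv.2.2 (u - m) (by omega) (by rw [add_sub_cancel]; exact hu.2.1)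
  omega

variable {X : Type} [TopologicalSpace X] [MulAction Di X] [ContinuousConstSMul Di X]
  [CompactSpace X] {p : X → ℕ → Bool}

theorem exists_sel (hfree : ∀ (g : Di) (x : X), g • x = x → g = 1) (hp : Continuous p)
    (hpi : Function.Injective p) {C : Set X} (hC : IsClopen C) (h : Meets Di C) :
    ∃ σ : X → Di, IsLocallyConstant σ ∧ ∀ x (m M : ℤ), -M ≤ m → m ≤ M →
      (∀ j, -M ≤ j → j ≤ M → ln j • x ∉ C) → σ (ln m • x) * ln m = σ x := by
  classical
  obtain ⟨F, -, hF⟩ := fin_of_cover (P := univ) hC.isOpen fun x => (h x).imp fun _ k => ⟨trivial, k⟩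
  obtain ⟨N, hN⟩ := (F.finite_toSet.image fun g => |ps g|).bddAbove
  have key (x : X) (t : ℤ) : ∃ i, -N ≤ i ∧ i ≤ N ∧ ln (2 * t + i) • x ∈ C := by
    obtain ⟨g, k, q⟩ := hF (ln (2 * t) • x)
    have := abs_le.1 (hN ⟨g, k, rfl⟩)
    refine ⟨ps g, this.1, this.2, ?_⟩
    rwa [← ln_mul_ev _ (by omega), ln_ps, mul_smul]
  obtain ⟨u, uc, hu⟩ := exists_up (fun (x : X) j => ln j • x ∈ C)
    (fun j => hC.preimage (continuous_const_smul _)) fun x => by
      obtain ⟨i, a, b, c⟩ := key x (N + 1)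
      exact ⟨_, by omega, c⟩
  obtain ⟨d, dc, hd⟩ := exists_up (fun (x : X) j => ln (-j) • x ∈ C)
    (fun j => hC.preimage (continuous_const_smul _)) fun x => by
      obtain ⟨i, a, b, c⟩ := key x (-N - 1)
      exact ⟨-(2 * (-N - 1) + i), by omega, by rwa [neg_neg]⟩
  have ne (x : X) : toLex (p (ln (u x) • x)) ≠ toLex (p (ln (-d x) • x)) := fun z => by
    have a := hfree ((ln (-d x))⁻¹ * ln (u x)) x
      (by rw [mul_smul, hpi (toLex.injective z), inv_smul_smul])
    have := ln_inj (inv_mul_eq_one.1 a)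
    have := (hu x).1
    have := (hd x).1
    omega
  refine ⟨fun x => if toLex (p (ln (u x) • x)) < toLex (p (ln (-d x) • x)) then ln (u x)
    else ln (-d x), (IsLocallyConstant.iff_eventually_eq _).2 fun x => ?_, ?_⟩
  · have c (g : Di) : Continuous fun y : X => p (g • y) := hp.comp (continuous_const_smul g)
    rcases lt_or_gt_of_ne (ne x) with q | q
    · filter_upwards [uc.eventually_eq x, dc.eventually_eq x,
        (isOpen_lex_lt (c _) (c _)).mem_nhds q] with y a b k
      rw [a, b]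
      exact (if_pos k).trans (if_pos q).symm
    · filter_upwards [uc.eventually_eq x, dc.eventually_eq x,
        (isOpen_lex_lt (c _) (c _)).mem_nhds q] with y a b k
      rw [a, b]
      exact (if_neg (lt_asymm k)).trans (if_neg (lt_asymm q)).symm
  intro x m M h1 h2 hM
  have hM' : ∀ j, -M ≤ j → j ≤ M → ln (-j) • x ∉ C := fun j a b => hM _ (by omega) (by omega)
  have U := hu (ln m • x)
  have D := hd (ln m • x)
  rcases Int.emod_two_eq_zero_or_one m with q | q
  · simp only [smul_smul, ln_mul_ev _ q] at U D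
    have a := shift_up (fun j => ln j • x ∈ C) hM h1 h2 (hu x) U
    have b := shift_up (fun j => ln (-j) • x ∈ C) (m := -m) (v := d (ln m • x)) hM' (by omega)
      (by omega) (hd x) (by simpa only [neg_add, neg_neg] using D)
    have b' : m + -d (ln m • x) = -d x := by omega
    simp only [smul_smul, ite_mul, ln_mul_ev _ q, a, b']
  · simp only [smul_smul, ln_mul_od _ q, sub_neg_eq_add] at U D
    have a := shift_up (fun j => ln j • x ∈ C) hM h1 h2 (hu x) D
    have b := shift_up (fun j => ln (-j) • x ∈ C) (m := -m) (v := u (ln m • x)) hM' (by omega)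
      (by omega) (hd x) (by simpa only [neg_add, neg_neg, ← sub_eq_add_neg] using U)
    have b' : m - u (ln m • x) = -d x := by omega
    simp only [smul_smul, ite_mul, ln_mul_od _ q, sub_neg_eq_add, a, b']
    rcases lt_or_gt_of_ne (ne x) with k | k
    · exact (if_neg (lt_asymm k)).trans (if_pos k).symm
    · exact (if_pos k).trans (if_neg (lt_asymm k)).symm

/-- free actions of the infinite dihedral group reduce continuously to eventual equality -/
theorem di_reduction [PolishSpace X] (hz : IsTopologicalBasis {s : Set X | IsClopen s})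
    (hfree : ∀ (g : Di) (x : X), g • x = x → g = 1) :
    ∃ f : X → ℕ → Bool, Continuous f ∧
      ∀ x y, (∃ g : Di, y = g • x) ↔ {n | f x n ≠ f y n}.Finite := by
  obtain ⟨p, hp, hpi⟩ := exists_continuous_injective_cantor X hz
  obtain ⟨C, hC, hx⟩ := exists_markers hfree hp hpi
  choose σ hσ hσ' using fun n => exists_sel hfree hp hpi (hC n).1 (hC n).2
  refine red_of_sel hp hpi σ hσ fun x a => ?_
  have : ∀ᶠ n in atTop, ∀ j ∈ Icc (-|ps a|) |ps a|, ln j • x ∉ C n :=
    (finite_Icc _ _).eventually_all.2 fun j _ => hx _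
  filter_upwards [this] with n hn
  have := hσ' n x (ps a) |ps a| (neg_abs_le _) (le_abs_self _) fun j a b => hn j ⟨a, b⟩
  rwa [ln_ps] at this

end Pool.Agent.Lib.MP_e7ecf3_lc
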