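import Mathlib

/-!
Free continuous actions of a countable locally finite group on a second countable
zero-dimensional Hausdorff space reduce continuously to eventual equality on Cantor space.
-/

namespace Pool.Agent.Lib.MP_e7ecf3_lc

open Topology TopologicalSpace Filter Set

/-- A second countable zero-dimensional Hausdorff space injects continuously in Cantor space. -/
theorem exists_continuous_injective_cantor (X : Type) [TopologicalSpace X] [T2Space X]
    [SecondCountableTopology X] (hz : IsTopologicalBasis {s : Set X | IsClopen s}) :
    ∃ p : X → ℕ → Bool, Continuous p ∧ Function.Injective p := by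
  classical
  obtain ⟨b, hbs, hbc, hb⟩ := hz.exists_countable
  have hc : (insert (∅ : Set X) b).Countable := hbc.insert _
  obtain ⟨u, hu⟩ := hc.exists_eq_range (insert_nonempty _ _)
  have hcl : ∀ n, IsClopen (u n) := by
    intro n
    have : u n ∈ insert (∅ : Set X) b := by rw [hu]; exact mem_range_self n
    rcases this with h | h
    · rw [h]; exact isClopen_empty
    · exact hbs h
  refine ⟨fun x n => decide (x ∈ u n), ?_, ?_⟩
  · refine continuous_pi fun n => ?_
    refine (IsLocallyConstant.iff_isOpen_fiber.2 ?_).continuous
    intro y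
    cases y
    · convert (hcl n).compl.isOpen using 1
      ext x; simp
    · convert (hcl n).isOpen using 1
      ext x; simp
  · intro x y hxy
    by_contra hne
    obtain ⟨v, hv, hxv, hvs⟩ := hb.exists_subset_of_mem_open (a := x) (u := {y}ᶜ) hne
      isOpen_compl_singleton
    have : v ∈ range u := by rw [← hu]; exact mem_insert_of_mem _ hv
    obtain ⟨n, rfl⟩ := this
    have h1 := congrFun hxy n
    simp only [decide_eq_decide] at h1
    exact hvs (h1.1 hxv) rfl

theorem isOpen_lex_lt {X : Type} [TopologicalSpace X] {u v : X → ℕ → Bool}
    (hu : Continuous u) (hv : Continuous v) :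
    IsOpen {x | toLex (u x) < toLex (v x)} := by
  have : {x | toLex (u x) < toLex (v x)} =
      ⋃ i : ℕ, ((⋂ j ∈ Finset.range i, {x | u x j = v x j}) ∩ {x | u x i < v x i}) := by
    ext x
    simp only [mem_ofPred_eq, mem_iUnion, mem_inter_iff, mem_iInter, Finset.mem_range]
    exact Iff.rfl
  rw [this]
  refine isOpen_iUnion fun i => IsOpen.inter ?_ ?_
  · refine isOpen_biInter_finset fun j _ => ?_
    have hc : Continuous fun x => (u x j, v x j) := by fun_prop
    exact (isOpen_discrete {q : Bool × Bool | q.1 = q.2}).preimage hc
  · have hc : Continuous fun x => (u x i, v x i) := by fun_prop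
    exact (isOpen_discrete {q : Bool × Bool | q.1 < q.2}).preimage hc

/-- Continuous selector for a finite subgroup of a freely acting group. -/
theorem exists_selector {G X : Type} [Group G] [TopologicalSpace X] [MulAction G X]
    [ContinuousConstSMul G X] (hfree : ∀ (g : G) (x : X), g • x = x → g = 1)
    {p : X → ℕ → Bool} (hp : Continuous p) (hpi : Function.Injective p)
    (F : Subgroup G) [Finite F] :
    ∃ σ : X → G, IsLocallyConstant σ ∧ (∀ x, σ x ∈ F) ∧
      ∀ x, ∀ a ∈ F, σ (a • x) * a = σ x := by
  classical
  have hinj : ∀ (x : X) (g h : G), toLex (p (g • x)) = toLex (p (h • x)) → g = h := by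
    intro x g h hgh
    have h1 : g • x = h • x := hpi (toLex.injective hgh)
    have h2 : (h⁻¹ * g) • x = x := by rw [mul_smul, h1, inv_smul_smul]
    have := hfree _ _ h2
    exact (inv_mul_eq_one.1 this).symm
  have hex : ∀ x : X, ∃ g : F, ∀ h : F, toLex (p ((g : G) • x)) ≤ toLex (p ((h : G) • x)) :=
    fun x => Finite.exists_min (fun g : F => toLex (p ((g : G) • x)))
  choose s hs using hex
  have huniq : ∀ (x : X) (g : G), g ∈ F →
      (∀ h ∈ F, toLex (p (g • x)) ≤ toLex (p (h • x))) → (s x : G) = g := by
    intro x g hg hmin
    exact hinj x _ _ (le_antisymm (hs x ⟨g, hg⟩) (hmin _ (s x).2))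
  refine ⟨fun x => s x, ?_, fun x => (s x).2, ?_⟩
  · rw [IsLocallyConstant.iff_eventually_eq]
    intro x
    have hopen : IsOpen (⋂ h : F, {y | h = s x ∨
        toLex (p ((s x : G) • y)) < toLex (p ((h : G) • y))}) := by
      refine isOpen_iInter_of_finite fun h => ?_
      by_cases hh : h = s x
      · simp [hh]
      · simp only [hh, false_or]
        exact isOpen_lex_lt (hp.comp (continuous_const_smul _))
          (hp.comp (continuous_const_smul _))
    have hmem : x ∈ ⋂ h : F, {y | h = s x ∨
        toLex (p ((s x : G) • y)) < toLex (p ((h : G) • y))} := by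
      refine mem_iInter.2 fun h => ?_
      by_cases hh : h = s x
      · exact Or.inl hh
      · refine Or.inr (lt_of_le_of_ne (hs x h) ?_)
        intro heq
        exact hh (Subtype.ext (hinj x _ _ heq).symm)
    filter_upwards [hopen.mem_nhds hmem] with y hy
    refine huniq y _ (s x).2 fun h hh => ?_
    rcases mem_iInter.1 hy ⟨h, hh⟩ with h1 | h1
    · rw [← h1]
    · exact h1.le
  · intro x a ha
    symm
    refine huniq x _ (F.mul_mem (s (a • x)).2 ha) fun h hh => ?_
    have := hs (a • x) ⟨h * a⁻¹, F.mul_mem hh (F.inv_mem ha)⟩
    simpa [mul_smul] using this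

/-- The reduction. -/
theorem exists_reduction {G X : Type} [Group G] [Countable G] [TopologicalSpace X] [T2Space X]
    [SecondCountableTopology X] [MulAction G X] [ContinuousConstSMul G X]
    (hz : IsTopologicalBasis {s : Set X | IsClopen s})
    (hfree : ∀ (g : G) (x : X), g • x = x → g = 1)
    (F : ℕ → Subgroup G) (hfin : ∀ n, Finite (F n)) (hmono : Monotone F)
    (hcov : ∀ g, ∃ n, g ∈ F n) :
    ∃ f : X → ℕ → Bool, Continuous f ∧
      ∀ x y, (∃ g : G, y = g • x) ↔ {n | f x n ≠ f y n}.Finite := by
  classical
  obtain ⟨p, hp, hpi⟩ := exists_continuous_injective_cantor X hz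
  have hsel := fun n => @exists_selector G X _ _ _ _ hfree p hp hpi (F n) (hfin n)
  choose σ hσc hσF hσe using hsel
  let I := ℕ × G × Option ℕ
  obtain ⟨e⟩ : Nonempty (ℕ ≃ I) := nonempty_equiv_of_countable
  let b : X → I → Bool := fun x i =>
    match i with
    | (n, g, none) => decide (σ (n + 1) x * (σ n x)⁻¹ = g)
    | (n, g, some k) => if g ∈ F n ∧ k < n then p (g • σ n x • x) k else false
  have hfinI : ∀ x y, {n | b x (e n) ≠ b y (e n)}.Finite ↔ {i | b x i ≠ b y i}.Finite := by
    intro x y
    have : {n | b x (e n) ≠ b y (e n)} = e ⁻¹' {i | b x i ≠ b y i} := rfl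
    rw [this]
    constructor
    · intro h
      exact h.of_preimage e.surjective
    · intro h
      exact h.preimage e.injective.injOn
  refine ⟨fun x n => b x (e n), ?_, ?_⟩
  · refine continuous_pi fun n => ?_
    generalize e n = i
    obtain ⟨m, g, o⟩ := i
    cases o with
    | none =>
      have h1 : IsLocallyConstant fun x => (σ (m + 1) x, σ m x) := (hσc _).prodMk (hσc _)
      exact (h1.comp fun q : G × G => decide (q.1 * q.2⁻¹ = g)).continuous
    | some k =>
      by_cases hc : g ∈ F m ∧ k < m
      · simp only [b, hc, and_self, if_true]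
        rw [continuous_iff_continuousAt]
        intro x
        have h1 : Continuous fun y => p (g • σ m x • y) k := by
          have : Continuous fun y : X => g • σ m x • y := by fun_prop
          exact (continuous_apply k).comp (hp.comp this)
        refine h1.continuousAt.congr ?_
        filter_upwards [(hσc m).eventually_eq x] with y hy
        rw [hy]
      · simp only [b, hc, if_false]
        exact continuous_const
  · intro x y
    rw [hfinI]
    constructor
    · rintro ⟨a, rfl⟩
      obtain ⟨m, hm⟩ := hcov a
      have hfm : (F m : Set G).Finite := Set.finite_coe_iff.1 (hfin m)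
      have hbig : ((Set.Iio m) ×ˢ ((F m : Set G) ×ˢ
          (insert none (some '' Set.Iio m) : Set (Option ℕ)))).Finite :=
        (Set.finite_Iio m).prod (hfm.prod (((Set.finite_Iio m).image _).insert _))
      refine hbig.subset ?_
      rintro ⟨n, g, o⟩ hne
      have hσ : ∀ k, m ≤ k → σ k (a • x) = σ k x * a⁻¹ := by
        intro k hk
        rw [← hσe k x a (hmono hk hm)]; simp
      have hnm : n < m := by
        by_contra hge
        push Not at hge
        apply hne
        cases o with
        | none =>
          simp only [b]
          rw [hσ n hge, hσ (n + 1) (by omega)]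
          simp [mul_assoc]
        | some k =>
          simp only [b]
          rw [hσ n hge]
          simp [mul_smul]
      refine ⟨hnm, ?_, ?_⟩
      · cases o with
        | none =>
          by_contra hg
          apply hne
          have key : ∀ z, σ (n + 1) z * (σ n z)⁻¹ ≠ g := by
            intro z hz'
            apply hg
            rw [← hz']
            exact (F m).mul_mem (hmono (by omega) (hσF _ _))
              ((F m).inv_mem (hmono (by omega) (hσF _ _)))
          simp only [b, key]
        | some k =>
          by_contra hg
          apply hne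
          have : g ∉ F n := fun h => hg (hmono hnm.le h)
          simp [b, this]
      · cases o with
        | none => exact mem_insert _ _
        | some k =>
          refine mem_insert_of_mem _ ⟨k, ?_, rfl⟩
          by_contra hk
          apply hne
          have : ¬ k < n := fun h => hk (lt_trans h hnm)
          simp [b, this]
    · intro hfin'
      obtain ⟨m, hm⟩ := (hfin'.image Prod.fst).bddAbove
      have hagree : ∀ n, m < n → ∀ g o, b x (n, g, o) = b y (n, g, o) := by
        intro n hn g o
        by_contra hne
        have : n ≤ m := hm ⟨(n, g, o), hne, rfl⟩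
        omega
      have hcoc : ∀ n, m < n → σ (n + 1) x * (σ n x)⁻¹ = σ (n + 1) y * (σ n y)⁻¹ := by
        intro n hn
        have := hagree n hn (σ (n + 1) y * (σ n y)⁻¹) none
        simpa [b] using this
      have hconst : ∀ n, m + 1 ≤ n → (σ n y)⁻¹ * σ n x = (σ (m + 1) y)⁻¹ * σ (m + 1) x := by
        intro n hn
        induction n, hn using Nat.le_induction with
        | base => rfl
        | succ n hn ih =>
          rw [← ih]
          have h1 := hcoc n (by omega)
          have h2 : σ (n + 1) x = σ (n + 1) y * (σ n y)⁻¹ * σ n x := by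
            rw [← h1]; simp
          rw [h2]; simp [mul_assoc]
      refine ⟨(σ (m + 1) y)⁻¹ * σ (m + 1) x, hpi ?_⟩
      funext k
      have h1 := hagree (m + 1 + k + 1) (by omega) (σ (m + 1 + k + 1) y)⁻¹ (some k)
      have h2 : (σ (m + 1 + k + 1) y)⁻¹ ∈ F (m + 1 + k + 1) ∧ k < m + 1 + k + 1 :=
        ⟨(F _).inv_mem (hσF _ _), by omega⟩
      simp only [b, h2, and_self, if_true, inv_smul_smul] at h1
      rw [← hconst (m + 1 + k + 1) (by omega), mul_smul, h1]

end Pool.Agent.Lib.MP_e7ecf3_lc
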