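import Pool.Agent.Lib.MP_e7ecf3_lc.Reduction

/-! A continuous reduction to eventual equality from locally constant selectors, and disjoint
clopen sets that meet every orbit. -/

namespace Pool.Agent.Lib.MP_e7ecf3_lc

open Topology TopologicalSpace Filter Set

variable {G X : Type} [Group G] [TopologicalSpace X] [MulAction G X] [ContinuousConstSMul G X]
  [CompactSpace X] {p : X → ℕ → Bool}

theorem red_of_sel [Countable G] (hp : Continuous p) (hpi : Function.Injective p) (σ : ℕ → X → G)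
    (hσc : ∀ n, IsLocallyConstant (σ n))
    (hσ : ∀ x a, ∀ᶠ n in atTop, σ n (a • x) * a = σ n x) :
    ∃ f : X → ℕ → Bool, Continuous f ∧
      ∀ x y, (∃ g : G, y = g • x) ↔ {n | f x n ≠ f y n}.Finite := by
  classical
  let I := ℕ × G × Option ℕ
  obtain ⟨e⟩ : Nonempty (ℕ ≃ I) := nonempty_equiv_of_countable
  let b : X → I → Bool := fun x i =>
    match i with
    | (n, g, none) => decide (σ (n + 1) x * (σ n x)⁻¹ = g)
    | (n, g, some k) => if g⁻¹ ∈ range (σ n) ∧ k < n then p (g • σ n x • x) k else false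
  have hfinI : ∀ x y, {n | b x (e n) ≠ b y (e n)}.Finite ↔ {i | b x i ≠ b y i}.Finite :=
    fun x y => ⟨fun h => Finite.of_preimage (f := e) h e.surjective,
      fun h => h.preimage e.injective.injOn⟩
  refine ⟨fun x n => b x (e n), continuous_pi fun n => ?_, fun x y => ?_⟩
  · generalize e n = i
    obtain ⟨m, g, _ | k⟩ := i
    · exact (((hσc _).prodMk (hσc _)).comp fun q : G × G => decide (q.1 * q.2⁻¹ = g)).continuous
    · by_cases hc : g⁻¹ ∈ range (σ m) ∧ k < m
      · simp only [b, hc, and_self, if_true]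
        refine continuous_iff_continuousAt.2 fun x => ?_
        have h1 : Continuous fun y => p (g • σ m x • y) k :=
          (continuous_apply k).comp (hp.comp (by fun_prop))
        refine h1.continuousAt.congr ?_
        filter_upwards [(hσc m).eventually_eq x] with y hy
        rw [hy]
      · simp only [b, hc, if_false]
        exact continuous_const
  rw [hfinI]
  constructor
  · rintro ⟨a, rfl⟩
    obtain ⟨m, hm⟩ := eventually_atTop.1 (hσ x a)
    have tr (z : X) : {i : I | i.1 < m ∧ b z i = true}.Finite := by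
      refine (((finite_Iio m).image fun n => ((n, σ (n + 1) z * (σ n z)⁻¹, none) : I)).union
        ((finite_Iio m).biUnion fun n _ => (((hσc n).range_finite.prod (finite_Iio n)).image
          fun q => ((n, q.1⁻¹, some q.2) : I)))).subset ?_
      rintro ⟨n, g, _ | k⟩ ⟨h1, h2⟩
      · exact .inl ⟨n, h1, congrArg (fun t => ((n, t, none) : I)) (of_decide_eq_true h2)⟩
      · have hc : g⁻¹ ∈ range (σ n) ∧ k < n := by
          by_contra hc
          simp only [b, hc, if_false] at h2
          exact Bool.false_ne_true h2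
        exact .inr (mem_biUnion h1 ⟨(g⁻¹, k), hc,
          congrArg (fun t => ((n, t, some k) : I)) (inv_inv g)⟩)
    refine ((tr x).union (tr (a • x))).subset ?_
    rintro ⟨n, g, o⟩ hne
    have hs (k) (hk : m ≤ k) : σ k (a • x) = σ k x * a⁻¹ := by rw [← hm k hk, mul_inv_cancel_right]
    have hnm : n < m := by
      by_contra hge
      apply hne
      cases o with
      | none =>
        simp only [b]
        rw [hs n (by omega), hs (n + 1) (by omega)]
        simp [mul_assoc]
      | some k =>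
        simp only [b]
        rw [hs n (by omega)]
        simp [mul_smul]
    by_cases h : b x (n, g, o) = true
    · exact .inl ⟨hnm, h⟩
    · refine .inr ⟨hnm, ?_⟩
      by_contra h'
      exact hne ((Bool.eq_false_iff.2 h).trans (Bool.eq_false_iff.2 h').symm)
  · intro hfin
    obtain ⟨m, hm⟩ := (hfin.image Prod.fst).bddAbove
    have hagree : ∀ n, m < n → ∀ g o, b x (n, g, o) = b y (n, g, o) := by
      intro n hn g o
      by_contra hne
      have : n ≤ m := hm ⟨(n, g, o), hne, rfl⟩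
      omega
    have hconst : ∀ n, m + 1 ≤ n → (σ n y)⁻¹ * σ n x = (σ (m + 1) y)⁻¹ * σ (m + 1) x := by
      intro n hn
      induction n, hn using Nat.le_induction with
      | base => rfl
      | succ n hn ih =>
        have h1 : σ (n + 1) x * (σ n x)⁻¹ = σ (n + 1) y * (σ n y)⁻¹ := by
          simpa [b] using hagree n (by omega) (σ (n + 1) y * (σ n y)⁻¹) none
        rw [← ih, mul_inv_eq_iff_eq_mul.1 h1]
        simp [mul_assoc]
    refine ⟨(σ (m + 1) y)⁻¹ * σ (m + 1) x, hpi (funext fun k => ?_)⟩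
    have h1 := hagree (m + 1 + k + 1) (by omega) (σ (m + 1 + k + 1) y)⁻¹ (some k)
    have h2 : (σ (m + 1 + k + 1) y)⁻¹⁻¹ ∈ range (σ (m + 1 + k + 1)) ∧ k < m + 1 + k + 1 :=
      ⟨⟨y, by rw [inv_inv]⟩, by omega⟩
    simp only [b, h2, and_self, if_true, inv_smul_smul] at h1
    rw [← hconst (m + 1 + k + 1) (by omega), mul_smul, h1]

/-- `U` meets every orbit -/
def Meets (G : Type) {X : Type} [Group G] [MulAction G X] (U : Set X) : Prop :=
  ∀ x : X, ∃ g : G, g • x ∈ U

theorem fin_of_cover {U : Set X} (hU : IsOpen U) {P : Set G} (h : ∀ x : X, ∃ g ∈ P, g • x ∈ U) :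
    ∃ F : Finset G, (∀ g ∈ F, g ∈ P) ∧ ∀ x : X, ∃ g ∈ F, g • x ∈ U := by
  classical
  obtain ⟨S, hS⟩ := isCompact_univ.elim_finite_subcover (fun g : P => {x : X | g.1 • x ∈ U})
    (fun g => hU.preimage (continuous_const_smul _)) fun x _ => by
      obtain ⟨g, k, q⟩ := h x
      exact mem_iUnion.2 ⟨⟨g, k⟩, q⟩
  refine ⟨S.image Subtype.val, fun g k => ?_, fun x => ?_⟩
  · obtain ⟨g, -, rfl⟩ := Finset.mem_image.1 k
    exact g.2
  · obtain ⟨g, k, q⟩ := mem_iUnion₂.1 (hS (mem_univ x))
    exact ⟨g, Finset.mem_image_of_mem _ k, q⟩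

omit [ContinuousConstSMul G X] in
theorem exists_lex_min (hp : Continuous p) {Z : Set X} (hZ : IsClosed Z) (h : Z.Nonempty) :
    ∃ z ∈ Z, ∀ y ∈ Z, toLex (p z) ≤ toLex (p y) := by
  have := h.to_subtype
  have cl (y : Z) : IsClosed (Z ∩ {x | toLex (p x) ≤ toLex (p y)}) := hZ.inter ⟨by
    convert isOpen_lex_lt (u := fun _ : X => p y) continuous_const hp using 1
    ext x
    exact not_le (a := toLex (p x))⟩
  obtain ⟨z, hz⟩ := IsCompact.nonempty_iInter_of_directed_nonempty_isCompact_isClosed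
    (fun y : Z => Z ∩ {x | toLex (p x) ≤ toLex (p y)}) (fun a b => by
      rcases le_total (toLex (p a)) (toLex (p b)) with q | q
      · exact ⟨a, subset_rfl, fun x k => ⟨k.1, le_trans k.2 q⟩⟩
      · exact ⟨b, fun x k => ⟨k.1, le_trans k.2 q⟩, subset_rfl⟩)
    (fun y => ⟨y, y.2, le_refl (toLex (p y))⟩) (fun y => (cl y).isCompact) cl
  rw [mem_iInter] at hz
  exact ⟨z, (hz ⟨_, h.some_mem⟩).1, fun y k => (hz ⟨y, k⟩).2⟩

theorem split_meets [Infinite G] (hfree : ∀ (g : G) (x : X), g • x = x → g = 1)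
    (hp : Continuous p) (hpi : Function.Injective p) {U : Set X} (hU : IsClopen U)
    (h : Meets G U) : ∃ A, IsClopen A ∧ A ⊆ U ∧ Meets G A ∧ Meets G (U \ A) := by
  classical
  obtain ⟨F0, -, h0⟩ := fin_of_cover (P := univ) hU.isOpen fun x => (h x).imp fun _ k => ⟨trivial, k⟩
  obtain ⟨F, f1, hF⟩ := fin_of_cover (G := G) (P := {1}ᶜ) hU.isOpen fun x => by
    obtain ⟨a, ha⟩ := Infinite.exists_notMem_finset (F0.image (·⁻¹))
    obtain ⟨g, k, q⟩ := h0 (a • x)
    exact ⟨g * a, fun z => ha (Finset.mem_image.2 ⟨g, k, (eq_inv_of_mul_eq_one_right z).symm⟩),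
      by rwa [mul_smul]⟩
  let F' := F ∪ F.image (·⁻¹)
  have ne (d) (k : d ∈ F') (x : X) : toLex (p x) ≠ toLex (p (d • x)) := fun z => by
    have d1 := hfree d x (hpi (toLex.injective z)).symm
    rcases Finset.mem_union.1 k with k | k
    · exact f1 d k d1
    · obtain ⟨c, kc, ec⟩ := Finset.mem_image.1 k
      exact f1 c kc (inv_eq_one.1 (ec.trans d1))
  let A := U ∩ ⋂ d ∈ F', ({x | d • x ∈ U}ᶜ ∪ {x | toLex (p x) < toLex (p (d • x))})
  have mA (x) : x ∈ A ↔ x ∈ U ∧ ∀ d ∈ F', d • x ∈ U → toLex (p x) < toLex (p (d • x)) := by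
    simp only [A, mem_inter_iff, mem_iInter, mem_union, mem_compl_iff, mem_ofPred_eq, imp_iff_not_or]
  have cA : IsClopen A := by
    refine hU.inter (isClopen_biInter_finset fun d k => IsClopen.union
      (hU.preimage (continuous_const_smul d)).compl ⟨⟨?_⟩, ?_⟩)
    · convert isOpen_lex_lt (hp.comp (continuous_const_smul d)) hp using 1
      ext x
      change ¬ toLex (p x) < toLex (p (d • x)) ↔ toLex (p (d • x)) < toLex (p x)
      exact ⟨fun q => lt_of_le_of_ne (not_lt.1 q) (ne d k x).symm, fun q => not_lt.2 q.le⟩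
    · exact isOpen_lex_lt hp (hp.comp (continuous_const_smul d))
  refine ⟨A, cA, inter_subset_left, fun x => ?_, fun x => ?_⟩
  · obtain ⟨z, ⟨z1, z2⟩, hz⟩ := exists_lex_min hp
      ((isClosed_closure (s := MulAction.orbit G x)).inter hU.isClosed)
      ((h x).elim fun g k => ⟨g • x, subset_closure ⟨g, rfl⟩, k⟩)
    have : z ∈ A := (mA z).2 ⟨z2, fun d k q => lt_of_le_of_ne (hz _ ⟨map_mem_closure
      (continuous_const_smul d) z1 (fun _ ⟨g, e⟩ => ⟨d * g, by rw [← e]; exact mul_smul ..⟩), q⟩)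
      (ne d k z)⟩
    obtain ⟨_, k, g, rfl⟩ := mem_closure_iff.1 z1 A cA.isOpen this
    exact ⟨g, k⟩
  · obtain ⟨g, k⟩ := h x
    by_cases q : g • x ∈ A
    · obtain ⟨d, d1, d2⟩ := hF (g • x)
      refine ⟨d * g, by rwa [mul_smul], fun r => ?_⟩
      rw [mul_smul] at r
      have a := ((mA _).1 r).2 d⁻¹ (Finset.mem_union_right _ (Finset.mem_image_of_mem _ d1))
      rw [inv_smul_smul] at a
      exact lt_asymm (a k) (((mA _).1 q).2 d (Finset.mem_union_left _ d1) d2)
    · exact ⟨g, k, q⟩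

theorem exists_markers [Infinite G] (hfree : ∀ (g : G) (x : X), g • x = x → g = 1)
    (hp : Continuous p) (hpi : Function.Injective p) : ∃ C : ℕ → Set X,
      (∀ n, IsClopen (C n) ∧ Meets G (C n)) ∧ ∀ x, ∀ᶠ n in atTop, x ∉ C n := by
  choose! A a1 a2 a3 a4 using fun U => split_meets (U := U) hfree hp hpi
  let U : ℕ → Set X := fun n => Nat.rec univ (fun _ V => V \ A V) n
  have hU (n) : IsClopen (U n) ∧ Meets G (U n) := by
    induction n with
    | zero => exact ⟨isClopen_univ, fun _ => ⟨1, trivial⟩⟩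
    | succ n ih => exact ⟨ih.1.diff (a1 _ ih.1 ih.2), a4 _ ih.1 ih.2⟩
  have an : Antitone U := antitone_nat_of_succ_le fun n => sdiff_subset
  refine ⟨fun n => A (U n), fun n => ⟨a1 _ (hU n).1 (hU n).2, a3 _ (hU n).1 (hU n).2⟩, fun x => ?_⟩
  by_cases h : ∃ n, x ∈ A (U n)
  · obtain ⟨n, h⟩ := h
    exact eventually_atTop.2 ⟨n + 1, fun m k q => (an k (a2 _ (hU m).1 (hU m).2 q)).2 h⟩
  · exact .of_forall fun n k => h ⟨n, k⟩

end Pool.Agent.Lib.MP_e7ecf3_lc
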