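import Pool.Agent.Lib.MP_e7ecf3_lc.Line
import Pool.Agent.Lib.MP_e7ecf3_lc.Flux

/-! Proper colourings of the line times the 3-adic integers: a free, topologically transitive
action of the infinite dihedral group on a Cantor space that is not orbit equivalent to an action
of the integers. -/

namespace Pool.Agent.Lib.MP_e7ecf3_lc

open Topology TopologicalSpace Filter Set Pointwise

/-- neighbours on the line have different second colours -/
def Prp (w : ℤ → Bool × Fin 3) : Prop := ∀ n, (w n).2 ≠ (w (n + 1)).2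

/-- the space -/
abbrev XX : Type := {q : (ℤ → Bool × Fin 3) × ℤ_[3] // Prp q.1}

theorem closed_prp : IsClosed {q : (ℤ → Bool × Fin 3) × ℤ_[3] | Prp q.1} := by
  simp only [Prp, ofPred_forall]
  exact isClosed_iInter fun n => (isClosed_discrete {t : Fin 3 × Fin 3 | t.1 ≠ t.2}).preimage
    (f := fun q : (ℤ → Bool × Fin 3) × ℤ_[3] => ((q.1 n).2, (q.1 (n + 1)).2)) (by fun_prop)

instance : CompactSpace XX := isCompact_iff_compactSpace.1 closed_prp.isCompact

instance : PolishSpace XX := closed_prp.polishSpace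

theorem ps_mul_ev (n : ℤ) {g : Di} (h : ps g % 2 = 0) : ps (ln n * g) = ps g + n := by
  conv_lhs => rw [← ln_ps g, ln_mul_ev n h, ps_ln]

theorem ps_mul_od (n : ℤ) {g : Di} (h : ps g % 2 = 1) : ps (ln n * g) = ps g - n := by
  conv_lhs => rw [← ln_ps g, ln_mul_od n h, ps_ln]

theorem ps_mul (d g : Di) : ps (d * g) = ps g + ps d ∨ ps (d * g) = ps g - ps d :=
  (Int.emod_two_eq_zero_or_one (ps g)).imp (fun q => by rw [← ps_mul_ev _ q, ln_ps])
    fun q => by rw [← ps_mul_od _ q, ln_ps]

/-- the action on the 3-adic integers -/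
noncomputable def act (g : Di) (z : ℤ_[3]) : ℤ_[3] :=
  if ps g % 2 = 0 then z + ps g else -(z + ps g)

theorem act_mul (g h : Di) (z : ℤ_[3]) : act (g * h) z = act g (act h z) := by
  rcases Int.emod_two_eq_zero_or_one (ps h) with q | q
  · have a := ps_mul_ev (ps g) q
    rw [ln_ps] at a
    simp only [act, a]
    split_ifs <;> first | omega | (push_cast; ring)
  · have a := ps_mul_od (ps g) q
    rw [ln_ps] at a
    simp only [act, a]
    split_ifs <;> first | omega | (push_cast; ring)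

theorem ps_one : ps 1 = 0 := by rw [← ln_zero, ps_ln]

noncomputable instance : MulAction Di XX where
  smul g x := ⟨(fun n => x.1.1 (ps (ln n * g)), act g x.1.2), fun n => by
    rcases Int.emod_two_eq_zero_or_one (ps g) with q | q
    · simp only [ps_mul_ev _ q, ← add_assoc]
      exact x.2 _
    · simp only [ps_mul_od _ q]
      have := x.2 (ps g - (n + 1))
      rw [show ps g - (n + 1) + 1 = ps g - n by ring] at this
      exact this.symm⟩
  one_smul x := Subtype.ext (Prod.ext (funext fun n => by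
    change x.1.1 (ps (ln n * 1)) = _
    rw [mul_one, ps_ln]) (by
    change act 1 x.1.2 = _
    simp [act, ps_one]))
  mul_smul g h x := Subtype.ext (Prod.ext (funext fun n => by
    change x.1.1 (ps (ln n * (g * h))) = x.1.1 (ps (ln (ps (ln n * g)) * h))
    rw [ln_ps, mul_assoc]) (act_mul g h _))

theorem smul_w (g : Di) (x : XX) (n : ℤ) : (g • x).1.1 n = x.1.1 (ps (ln n * g)) := rfl

theorem smul_z (g : Di) (x : XX) : (g • x).1.2 = act g x.1.2 := rfl

instance : ContinuousConstSMul Di XX where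
  continuous_const_smul g := by
    refine Continuous.subtype_mk (Continuous.prodMk (by fun_prop) ?_) _
    unfold act
    split_ifs <;> fun_prop

theorem XX_free (g : Di) (x : XX) (h : g • x = x) : g = 1 := by
  rcases Int.emod_two_eq_zero_or_one (ps g) with q | q
  · have a := smul_z g x
    rw [h, act, if_pos q, left_eq_add, Int.cast_eq_zero] at a
    rw [← ln_ps g, a, ln_zero]
  · have a := smul_w g x (ps g / 2)
    rw [h, ps_mul_od _ q, show ps g - ps g / 2 = ps g / 2 + 1 by omega] at a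
    exact absurd (congrArg Prod.snd a) (x.2 _)

theorem exists_glue (x x' : XX) (k : ℤ) : ∃ y : XX, y.1.2 = x.1.2 ∧
    (∀ n < k, y.1.1 n = x.1.1 n) ∧ (∀ n, k < n → y.1.1 n = x'.1.1 n) ∧
      (y.1.1 k).1 = (x.1.1 k).1 := by
  obtain ⟨c, c1, c2⟩ := (by decide : ∀ a b : Fin 3, ∃ c, c ≠ a ∧ c ≠ b) (x.1.1 (k - 1)).2
    (x'.1.1 (k + 1)).2
  refine ⟨⟨(fun n => if n < k then x.1.1 n else if k < n then x'.1.1 n else ((x.1.1 k).1, c),
    x.1.2), fun n => ?_⟩, rfl, fun n q => if_pos q,
    fun n q => (if_neg (lt_asymm q)).trans (if_pos q), by simp⟩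
  simp only
  split_ifs <;> try omega
  · exact x.2 n
  · rw [show n = k - 1 by omega]; exact c1.symm
  · exact x'.2 n
  · rw [show n = k by omega]; exact c2

theorem conv {y : ℕ → XX} {x : XX} (h1 : ∀ n, ∀ᶠ k in atTop, (y k).1.1 n = x.1.1 n)
    (h2 : Tendsto (fun k => (y k).1.2) atTop (𝓝 x.1.2)) : Tendsto y atTop (𝓝 x) :=
  tendsto_subtype_rng.2 (Tendsto.prodMk_nhds (tendsto_pi_nhds.2 fun n =>
    tendsto_const_nhds.congr' ((h1 n).mono fun _ q => q.symm)) h2)

theorem exists_seq (x x' : XX) (t : ℕ → ℤ) (ht : ∀ k : ℕ, 2 * (k : ℤ) ≤ t k)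
    (hz : Tendsto (fun k => act (ln (t k)) x.1.2) atTop (𝓝 x'.1.2)) :
    ∃ y : ℕ → XX, Tendsto y atTop (𝓝 x) ∧ Tendsto (fun k => ln (t k) • y k) atTop (𝓝 x') ∧
      ∀ (k : ℕ) (n : ℤ), ((y k).1.1 n).1 =
        if n ≤ k then (x.1.1 n).1 else (((ln (t k))⁻¹ • x').1.1 n).1 := by
  choose y y1 y2 y3 y4 using fun k : ℕ => exists_glue x ((ln (t k))⁻¹ • x') k
  refine ⟨y, conv (fun n => ?_) (by simp only [y1]; exact tendsto_const_nhds),
    conv (fun n => ?_) (by simpa only [smul_z, y1] using hz), fun k n => ?_⟩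
  · filter_upwards [eventually_gt_atTop n.natAbs] with k q using y2 k n (by omega)
  · filter_upwards [eventually_gt_atTop n.natAbs] with k q
    have a := ps_mul (ln n) (ln (t k))
    have b := ht k
    rw [ps_ln, ps_ln] at a
    rw [smul_w, y3 k _ (by omega), ← smul_w, smul_inv_smul]
  · split_ifs with q
    · rcases q.lt_or_eq with q | rfl
      · rw [y2 k n q]
      · exact y4 k
    · rw [y3 k n (by omega)]

theorem pow_three : Tendsto (fun k : ℕ => (3 : ℤ_[3]) ^ k) atTop (𝓝 0) :=
  tendsto_pow_atTop_nhds_zero_of_norm_lt_one (by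
    simpa using PadicInt.norm_lt_one_iff_dvd (p := 3) 3 |>.2 dvd_rfl)

theorem pow_bound (k : ℕ) : 2 * (k : ℤ) < 3 ^ k ∧ (3 : ℤ) ^ k % 2 = 1 := by
  induction k with
  | zero => simp
  | succ k ih => rw [pow_succ]; push_cast; omega

instance : PerfectSpace XX := perfectSpace_iff_forall_not_isolated.2 fun x =>
  Tendsto.neBot (f := fun k : ℕ => (⟨(x.1.1, x.1.2 + 3 ^ k), x.2⟩ : XX)) (x := atTop)
    (tendsto_nhdsWithin_iff.2 ⟨conv (fun _ => .of_forall fun _ => rfl)
      (by simpa using pow_three.const_add x.1.2), .of_forall fun k q => by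
        have : x.1.2 + 3 ^ k = x.1.2 := congrArg (fun t : XX => t.1.2) q
        simp at this⟩)

theorem XX_trans : MulAction.IsTopologicallyTransitive Di XX where
  exists_smul_inter := by
    rintro U V hU ⟨x, hx⟩ hV ⟨x', hx'⟩
    let j : ℤ_[3] → XX := fun s => ⟨(x'.1.1, x.1.2 + s), x'.2⟩
    have hj : Continuous j := Continuous.subtype_mk (by fun_prop) _
    obtain ⟨a, ha⟩ := (PadicInt.denseRange_natCast (p := 3)).exists_mem_open (hV.preimage hj)
      ⟨x'.1.2 - x.1.2, by simpa [j] using hx'⟩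
    obtain ⟨y, y1, y2, -⟩ := exists_seq x (j a) (fun k => a + 3 ^ k * (a + 2))
      (fun k => by have := pow_bound k; nlinarith) (by
        have (k : ℕ) : act (ln (a + 3 ^ k * (a + 2))) x.1.2 = x.1.2 + (a + 3 ^ k * (a + 2)) := by
          rw [act, ps_ln, if_pos (by
            rw [Int.add_emod, Int.mul_emod, (pow_bound k).2]; omega)]
          push_cast; rfl
        simp only [this]
        have b := ((pow_three.mul_const ((a : ℤ_[3]) + 2)).const_add (a : ℤ_[3])).const_add x.1.2
        rwa [zero_mul, add_zero] at b)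
    obtain ⟨k, k1, k2⟩ := ((y1.eventually (hU.mem_nhds hx)).and
      (y2.eventually (hV.mem_nhds ha))).exists
    exact ⟨_, _, smul_mem_smul_set k1, k2⟩

/-- the colouring with one jump -/
noncomputable def x0 : XX := ⟨(fun n => (decide (n ≤ 0), if n % 2 = 0 then 0 else 1), 0), fun n => by
  simp only
  split_ifs <;> omega⟩

theorem XX_not {Z : Type} [TopologicalSpace Z] [AddAction ℤ Z] [ContinuousConstVAdd ℤ Z]
    (φ : XX ≃ₜ Z) (hφ : ∀ x, ∃ z, φ '' MulAction.orbit Di x = AddAction.orbit ℤ z) : False := by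
  classical
  obtain ⟨y, y1, y2, y3⟩ := exists_seq x0 x0 (fun k => 3 ^ k) (fun k => (pow_bound k).1.le) (by
    have (k : ℕ) : act (ln (3 ^ k)) x0.1.2 = -(3 ^ k) := by
      rw [act, ps_ln, if_neg (by rw [(pow_bound k).2]; omega)]
      simp [x0]
    simp only [this]
    simpa [x0] using pow_three.neg)
  have inv (k : ℕ) : (ln (3 ^ k))⁻¹ = ln (3 ^ k) := inv_eq_of_mul_eq_one_right (by
    rw [ln_mul_od _ (pow_bound k).2, sub_self, ln_zero])
  have mulh (g : Di) (k : ℕ) : ps (g * ln (3 ^ k)) = 3 ^ k - ps g := by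
    conv_lhs => rw [← ln_ps g, ln_mul_od _ (pow_bound k).2, ps_ln]
  let col : XX → ℤ := fun q => if (q.1.1 0).1 then 1 else 0
  have cx (g : Di) : col (g • x0) = if ps g ≤ 0 then 1 else 0 := by
    simp only [col, smul_w, ln_zero, one_mul, x0, decide_eq_true_eq]
  have cy (g : Di) (k : ℕ) : col (g • y k) = if ps g ≤ 0 ∨ 3 ^ k ≤ ps g then 1 else 0 := by
    have := pow_bound k
    simp only [col, smul_w, ln_zero, one_mul, y3, inv, mulh, ps_ln, x0]
    split_ifs <;> simp_all <;> omega
  refine flux_obstruction XX_free col ?_ x0 y (fun k => ln (3 ^ k)) y1 y2 (fun S => ?_)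
    (fun k => ?_) (fun v => ?_) φ hφ
  · exact ((IsLocallyConstant.iff_continuous fun q : XX => (q.1.1 0).1).2 (by fun_prop)).comp
      fun b : Bool => if b then (1 : ℤ) else 0
  · obtain ⟨N, hN⟩ := (S.finite_toSet.image fun g => (ps g).natAbs).bddAbove
    have mJ (g : Di) : g ∈ (Finset.Icc (-(N : ℤ)) N).image ln ↔ -(N : ℤ) ≤ ps g ∧ ps g ≤ N :=
      ⟨fun q => by
        obtain ⟨n, q', rfl⟩ := Finset.mem_image.1 q
        rw [ps_ln]; exact Finset.mem_Icc.1 q',
      fun q => Finset.mem_image.2 ⟨_, Finset.mem_Icc.2 q, ln_ps g⟩⟩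
    refine ⟨(Finset.Icc (-(N : ℤ)) N).image ln, fun g d hd q => ?_, ?_⟩
    · have a : (ps d).natAbs ≤ N := hN ⟨d, hd, rfl⟩
      have b := ps_mul d g
      rw [smul_smul, cx, cx] at q
      rw [mJ]
      split_ifs at q <;> omega
    filter_upwards [eventually_gt_atTop N] with k hk
    have c := pow_bound k
    refine ⟨fun g d hd q => ?_, fun g q => ?_⟩
    · have a : (ps d).natAbs ≤ N := hN ⟨d, hd, rfl⟩
      have b := ps_mul d g
      rw [smul_smul, cy, cy] at q
      rw [mJ, mJ, inv, mulh]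
      split_ifs at q <;> omega
    · rw [mJ] at q ⊢
      rw [mulh]
      omega
  · refine ((finite_Ioo 0 ((3 : ℤ) ^ k)).image ln).subset fun g q => ⟨ps g, ?_, ln_ps g⟩
    rw [mem_ofPred_eq, cy] at q
    rw [mem_Ioo]
    split_ifs at q <;> omega
  · by_cases q : v = 1
    · refine infinite_of_injective_forall_mem (f := fun n : ℕ => ln (n + 1))
        (fun a b k => by simpa using ln_inj k) fun n => ?_
      rw [mem_ofPred_eq, cx, ps_ln]
      split_ifs <;> omega
    · refine infinite_of_injective_forall_mem (f := fun n : ℕ => ln (-n))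
        (fun a b k => by simpa using ln_inj k) fun n => ?_
      rw [mem_ofPred_eq, cx, ps_ln]
      split_ifs <;> omega

end Pool.Agent.Lib.MP_e7ecf3_lc
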